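import Mathlib

set_option autoImplicit false

namespace Pool.Agent.H.MP_53071c_co

open Finset

open Classical in
theorem moebius {W T : Type} [Fintype W] (F F' : W → T) (μ : T → ℕ) (n : ℕ) (ψ : T → T → Prop)
    (h0 : ∀ u, μ (F u) ≤ n ∧ μ (F' u) ≤ n) (h1 : ∀ t t', ψ t t' → t = t' ∨ μ t < μ t')
    (h2 : ∀ u, ψ (F u) (F u) ∧ ψ (F' u) (F' u)) (h3 : ∀ t, #{u | ψ t (F u)} = #{u | ψ t (F' u)}) (t : T) :
    #{u | F u = t} = #{u | F' u = t} := by
  induction' hk : n - μ t using Nat.strong_induction_on with k ih generalizing t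
  let S := univ.image F ∪ univ.image F'
  have hS : ∀ t ∈ S, μ t ≤ n ∧ ψ t t := fun t ht => by
    rcases mem_union.mp ht with a | a <;> obtain ⟨u, -, rfl⟩ := mem_image.mp a
    exacts [⟨(h0 u).1, (h2 u).1⟩, ⟨(h0 u).2, (h2 u).2⟩]
  by_cases ht : t ∈ S
  · have key : ∀ G : W → T, (∀ u, G u ∈ S) → #{u | ψ t (G u)} =
        #{u | G u = t} + ∑ s ∈ (S.filter (ψ t)).erase t, #{u | G u = s} := fun G hG => by
      rw [add_sum_erase _ (fun s => #{u | G u = s}) (mem_filter.mpr ⟨ht, (hS t ht).2⟩),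
        card_eq_sum_card_fiberwise (f := G) (t := S.filter (ψ t)) fun u hu => by
          simpa using ⟨by simpa using hG u, by simpa using hu⟩]
      refine sum_congr rfl fun s hs => congrArg _ ?_
      ext u
      simp only [mem_filter, mem_univ, true_and]
      exact ⟨fun a => a.2, fun a => ⟨a ▸ (mem_filter.mp hs).2, a⟩⟩
    have := h3 t
    rw [key F (by simp [S]), key F' (by simp [S]), sum_congr rfl fun s hs => by
      obtain ⟨a, b⟩ := mem_erase.mp hs
      have c := (hS s (mem_filter.mp b).1).1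
      have d := (h1 _ _ (mem_filter.mp b).2).resolve_left a.symm
      exact ih _ (by omega) s rfl] at this
    omega
  · rw [filter_eq_empty_iff.mpr fun u _ e => ht (by simp [S, ← e]),
      filter_eq_empty_iff.mpr fun u _ e => ht (by simp [S, ← e])]

open Classical in
theorem glue {W T : Type} [AddCommGroup W] (φ ψ : ℕ → W → W) (hφ : ∀ i u, φ i (φ i u) = u)
    (hψ : ∀ i u, ψ i (ψ i u) = u) (F F' : W → T)
    (hb : ∀ u d, F u = F' (u + d) → ∀ i, ψ i (u + d) = φ i u + d ∧ F (φ i u) = F' (φ i u + d))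
    (S : Finset W) : ∀ S' : Finset W, (∀ i, ∀ u ∈ S, φ i u ∈ S) → (∀ i, ∀ u ∈ S', ψ i u ∈ S') →
      (∀ t, #{u ∈ S | F u = t} = #{u ∈ S' | F' u = t}) →
      ∃ f : W → W, Set.BijOn f S S' ∧ ∀ u ∈ S, ∀ i, f (φ i u) = ψ i (f u) := by
  induction S using Finset.strongInduction with
  | H S ih =>
  intro S' c c' hc
  rcases S.eq_empty_or_nonempty with rfl | ⟨u, hu⟩
  · have : S' = ∅ := eq_empty_of_forall_notMem fun x hx => by
      have := hc (F' x)
      rw [filter_empty, card_empty, eq_comm, card_eq_zero, filter_eq_empty_iff] at this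
      exact this hx rfl
    exact ⟨id, by simp [this], by simp⟩
  obtain ⟨v, hv⟩ : ({v ∈ S' | F' v = F u} : Finset W).Nonempty := by
    rw [← card_pos, ← hc, card_pos]
    exact ⟨u, mem_filter.mpr ⟨hu, rfl⟩⟩
  obtain ⟨d, rfl⟩ : ∃ d, v = u + d := ⟨v - u, by simp⟩
  obtain ⟨hv, hv'⟩ := mem_filter.mp hv
  let O := {x ∈ S | F x = F' (x + d) ∧ x + d ∈ S'}
  have cO : ∀ i, ∀ x ∈ O, φ i x ∈ O ∧ ψ i (x + d) = φ i x + d := fun i x hx => by
    obtain ⟨a, b, e⟩ := mem_filter.mp hx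
    have := hb x d b i
    exact ⟨mem_filter.mpr ⟨c i x a, this.2, this.1 ▸ c' i _ e⟩, this.1⟩
  have s1 : O ⊆ S := filter_subset _ _
  have s2 : O.image (· + d) ⊆ S' := fun y hy => by
    obtain ⟨x, hx, rfl⟩ := mem_image.mp hy
    exact (mem_filter.mp hx).2.2
  obtain ⟨f, f1, f2⟩ := ih (S \ O) (sdiff_ssubset s1 ⟨u, mem_filter.mpr ⟨hu, hv'.symm, hv⟩⟩)
    (S' \ O.image (· + d)) (fun i x hx => mem_sdiff.mpr ⟨c i x (mem_sdiff.mp hx).1, fun e =>
      (mem_sdiff.mp hx).2 (hφ i x ▸ (cO i _ e).1)⟩)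
    (fun i x hx => mem_sdiff.mpr ⟨c' i x (mem_sdiff.mp hx).1, fun e => (mem_sdiff.mp hx).2 (by
      obtain ⟨y, hy, e⟩ := mem_image.mp e
      exact mem_image.mpr ⟨φ i y, (cO i y hy).1, by rw [← (cO i y hy).2, e, hψ]⟩)⟩) fun t => by
      have e : #{x ∈ O | F x = t} = #{x ∈ O.image (· + d) | F' x = t} := by
        rw [filter_image, card_image_of_injective _ (add_left_injective d)]
        exact congrArg _ (filter_congr fun x hx => by rw [(mem_filter.mp hx).2.1])
      have a : ∀ (A B : Finset W) (G : W → T), B ⊆ A → #{x ∈ A \ B | G x = t} =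
          #{x ∈ A | G x = t} - #{x ∈ B | G x = t} := fun A B G h => by
        rw [← card_sdiff_of_subset (filter_subset_filter _ h)]
        congr 1
        ext x
        simp only [mem_filter, mem_sdiff]
        tauto
      rw [a _ _ _ s1, a _ _ _ s2, hc, e]
  refine ⟨fun x => if x ∈ O then x + d else f x, ⟨fun x hx => ?_, fun x hx y hy e => ?_, fun y hy => ?_⟩,
    fun x hx i => ?_⟩
  · by_cases a : x ∈ O <;> simp only [a, if_true, if_false]
    · exact (mem_filter.mp a).2.2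
    · exact (mem_sdiff.mp (f1.mapsTo (mem_sdiff.mpr ⟨hx, a⟩))).1
  · by_cases a : x ∈ O <;> by_cases b : y ∈ O <;> simp only [a, b, if_true, if_false] at e
    · exact add_right_cancel e
    · exact absurd (e ▸ mem_image_of_mem _ a) (mem_sdiff.mp (f1.mapsTo (mem_sdiff.mpr ⟨hy, b⟩))).2
    · exact absurd (e ▸ mem_image_of_mem _ b) (mem_sdiff.mp (f1.mapsTo (mem_sdiff.mpr ⟨hx, a⟩))).2
    · exact f1.injOn (mem_sdiff.mpr ⟨hx, a⟩) (mem_sdiff.mpr ⟨hy, b⟩) e
  · by_cases a : y ∈ O.image (· + d)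
    · obtain ⟨x, hx, rfl⟩ := mem_image.mp a
      exact ⟨x, s1 hx, if_pos hx⟩
    · obtain ⟨x, hx, rfl⟩ := f1.surjOn (mem_sdiff.mpr ⟨hy, a⟩)
      exact ⟨x, (mem_sdiff.mp hx).1, if_neg (mem_sdiff.mp hx).2⟩
  · by_cases a : x ∈ O
    · simp only [a, (cO i x a).1, (cO i x a).2, if_true]
    · have : φ i x ∉ O := fun e => a (hφ i x ▸ (cO i _ e).1)
      simp only [a, this, if_false]
      exact f2 x (mem_sdiff.mpr ⟨hx, a⟩) i

end Pool.Agent.H.MP_53071c_co
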