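import Mathlib
import Pool.Agent.H.MP_53071c_co.Gen

set_option autoImplicit false

namespace Pool.Agent.H.MP_53071c_co

open Finset

variable {n : ℕ}

def X (u : Fin n → ZMod 2) (j : ℕ) : ZMod 2 := if h : j < n then u ⟨j, h⟩ else 0

def D (u : Fin n → ZMod 2) (j : ℕ) : ZMod 2 := X u j + X u (j + 1)

def ind (i : ℕ) : Fin n → ZMod 2 := fun j => if i ≤ j.1 ∧ j.1 ≤ i + 4 then 1 else 0

def Act (κ : ZMod 2) (u : Fin n → ZMod 2) (i : ℕ) : Prop :=
  i + 4 < n ∧ D u i = 1 ∧ D u (i + 1) = κ ∧ D u (i + 2) = 0 ∧ D u (i + 3) = 0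

open Classical in
noncomputable def mv (κ : ZMod 2) (i : ℕ) (u : Fin n → ZMod 2) : Fin n → ZMod 2 :=
  if Act κ u i then u + ind i else u

def Comb (B : Finset ℕ) (p q : ℕ → ZMod 2) : Prop := ∀ i ∈ B,
  (p i = 1 ∨ ∃ j ∈ B, i = j + 4 ∧ q j = 0) ∧ (q i = 0 ∨ (i + 4 ∈ B ∧ p (i + 4) = 1))

def Valid (κ : ZMod 2) (u : Fin n → ZMod 2) (B : Finset ℕ) : Prop :=
  (∀ i ∈ B, i + 4 < n ∧ D u (i + 1) = κ ∧ D u (i + 2) = 0) ∧ Comb B (D u) fun i => D u (i + 3)

theorem D_add (u v : Fin n → ZMod 2) (j : ℕ) : D (u + v) j = D u j + D v j := by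
  have : ∀ j, X (u + v) j = X u j + X v j := fun j => by
    unfold X; split_ifs <;> simp
  simp only [D, this]; ring

theorem D_ind {i : ℕ} (h : i + 4 < n) (j : ℕ) :
    D (ind i : Fin n → ZMod 2) j = if j + 1 = i ∨ j = i + 4 then 1 else 0 := by
  simp only [D, X, ind]
  split_ifs <;> first | omega | decide

theorem Valid.sep {κ : ZMod 2} {u : Fin n → ZMod 2} {B} (h : Valid κ u B) (j : ℕ) :
    ∀ i ∈ B, j ∈ B → i < j → i + 4 ≤ j := by
  induction j using Nat.strong_induction_on with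
  | _ j ih =>
  intro i hi hj e
  by_contra k
  rcases (h.2 j hj).1 with a | ⟨l, a, rfl, -⟩
  · obtain ⟨-, b1, b2⟩ := h.1 i hi
    obtain ⟨-, c1, c2⟩ := h.1 j hj
    have b3 := (h.2 i hi).2
    obtain rfl | rfl | rfl : j = i + 1 ∨ j = i + 2 ∨ j = i + 3 := by omega
    · rw [← c1, b2, a] at b1; simp at b1
    · rw [a] at b2; simp at b2
    · rcases b3 with b3 | ⟨b3, b4⟩
      · simp [a] at b3
      · have := (h.1 _ b3).2.1
        rw [← c1, c2, b4] at this; simp at this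
  · have := ih i e l a hi (by omega)
    omega

theorem Valid.union {κ : ZMod 2} {u : Fin n → ZMod 2} {B C} (h : Valid κ u B) (h' : Valid κ u C) :
    Valid κ u (B ∪ C) := by
  refine ⟨fun i hi => (mem_union.mp hi).elim (h.1 i) (h'.1 i), fun i hi => ?_⟩
  rcases mem_union.mp hi with a | a
  · have := h.2 i a
    simp only [mem_union] at this ⊢; grind
  · have := h'.2 i a
    simp only [mem_union] at this ⊢; grind

theorem Act.valid {κ : ZMod 2} {u : Fin n → ZMod 2} {i} (h : Act κ u i) : Valid κ u {i} := by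
  obtain ⟨a, b, c, d, e⟩ := h
  exact ⟨by simp [*], by simp [Comb, *]⟩

theorem Act.move {κ : ZMod 2} {u : Fin n → ZMod 2} {i} (h : Act κ u i) : Act κ (u + ind i) i := by
  obtain ⟨a, b, c, d, e⟩ := h
  simp [Act, D_add, D_ind a, *]
  omega

theorem Valid.move {κ : ZMod 2} {u : Fin n → ZMod 2} {B i} (h : Valid κ u B) (a : Act κ u i)
    (hi : i ∈ B) : Valid κ (u + ind i) B := by
  have s : ∀ j ∈ B, j = i ∨ j + 4 ≤ i ∨ i + 4 ≤ j := fun j hj => by
    rcases lt_trichotomy j i with e | e | e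
    exacts [Or.inr (Or.inl (h.sep _ _ hj hi e)), Or.inl e, Or.inr (Or.inr (h.sep _ _ hi hj e))]
  have z : ∀ x : ZMod 2, x = 0 ∨ x = 1 := by decide
  have k : ∀ j, ¬ (j + 1 = i ∨ j = i + 4) → D (u + ind i) j = D u j := fun j e => by
    rw [D_add, D_ind a.1, if_neg e, add_zero]
  refine ⟨fun j hj => ?_, fun j hj => ⟨?_, ?_⟩⟩
  · have := s j hj
    rw [k _ (by omega), k _ (by omega)]
    exact h.1 j hj
  · have := s j hj
    by_cases e : j = i + 4
    · exact Or.inr ⟨i, hi, e, a.move.2.2.2.2⟩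
    · rw [k _ (by omega)]
      rcases (h.2 j hj).1 with b | ⟨l, b, rfl, c⟩
      · exact Or.inl b
      · by_cases f : l + 4 = i
        · exact Or.inl (f ▸ a.2.1)
        · have := s l b
          exact Or.inr ⟨l, b, rfl, (k _ (by omega)).trans c⟩
  · have := s j hj
    by_cases e : j + 4 = i
    · exact Or.inr (by rw [e]; exact ⟨hi, a.move.2.1⟩)
    · simp only
      rw [k _ (by omega)]
      rcases (h.2 j hj).2 with b | ⟨b, c⟩
      · exact Or.inl b
      · by_cases f : j = i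
        · exact Or.inl (f ▸ a.2.2.2.2)
        · have := s _ b
          exact Or.inr ⟨b, (k _ (by omega)).trans c⟩

open Classical in
noncomputable def top (κ : ZMod 2) (u : Fin n → ZMod 2) : Finset ℕ :=
  ((range n).powerset.filter (Valid κ u)).sup id

theorem top_valid (κ : ZMod 2) (u : Fin n → ZMod 2) : Valid κ u (top κ u) := by
  classical
  refine sup_induction (p := Valid κ u) ⟨by simp, by simp [Comb]⟩ (fun _ a _ b => a.union b) ?_
  exact fun B h => (mem_filter.mp h).2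

theorem Valid.range {κ : ZMod 2} {u : Fin n → ZMod 2} {B} (h : Valid κ u B) : B ⊆ range n :=
  fun i hi => by have := (h.1 i hi).1; simp only [mem_range]; omega

theorem Valid.le {κ : ZMod 2} {u : Fin n → ZMod 2} {B} (h : Valid κ u B) : B ⊆ top κ u := by
  classical
  exact le_sup (f := id) (mem_filter.mpr ⟨mem_powerset.mpr h.range, h⟩)

theorem ind2 (u : Fin n → ZMod 2) (i : ℕ) : u + ind i + ind i = u := by
  funext j
  simp only [Pi.add_apply, add_assoc, CharTwo.add_self_eq_zero, add_zero]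

theorem top_move {κ : ZMod 2} {u : Fin n → ZMod 2} {i} (a : Act κ u i) : top κ (u + ind i) = top κ u := by
  have : ∀ u : Fin n → ZMod 2, Act κ u i → top κ u ⊆ top κ (u + ind i) := fun u a =>
    ((top_valid κ u).move a (a.valid.le (by simp))).le
  exact subset_antisymm (by simpa only [ind2] using this _ a.move) (this u a)

theorem mv_mv (κ : ZMod 2) (i : ℕ) (u : Fin n → ZMod 2) : mv κ i (mv κ i u) = u := by
  by_cases h : Act κ u i
  · simp only [mv, h, h.move, if_true, ind2]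
  · simp only [mv, h, if_false]

def cut (B : Finset ℕ) (p : ℕ → ZMod 2) (i : ℕ) : ZMod 2 := if i ∈ B then p i else 0

noncomputable def F (κ : ZMod 2) (u : Fin n → ZMod 2) : Finset ℕ × (ℕ → ZMod 2) × (ℕ → ZMod 2) :=
  (top κ u, cut (top κ u) (D u), cut (top κ u) fun i => D u (i + 3))

theorem act_iff {κ : ZMod 2} {u : Fin n → ZMod 2} {i} :
    Act κ u i ↔ i ∈ (F κ u).1 ∧ (F κ u).2.1 i = 1 ∧ (F κ u).2.2 i = 0 := by
  constructor
  · intro h
    have : i ∈ top κ u := h.valid.le (by simp)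
    simp [F, cut, this, h.2.1, h.2.2.2.2]
  · rintro ⟨a, b, c⟩
    have := (top_valid κ u).1 i a
    simp only [F, cut] at a b c
    rw [if_pos a] at b c
    exact ⟨this.1, b, this.2.1, this.2.2, c⟩

theorem bisim {κ κ' : ZMod 2} (u d : Fin n → ZMod 2) (h : F κ u = F κ' (u + d)) (i : ℕ) :
    mv κ' i (u + d) = mv κ i u + d ∧ F κ (mv κ i u) = F κ' (mv κ i u + d) := by
  have e : Act κ u i ↔ Act κ' (u + d) i := by rw [act_iff, act_iff, h]
  by_cases a : Act κ u i
  · have b := e.mp a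
    simp only [mv, a, b, if_true, add_right_comm u (ind i) d, true_and]
    simp only [F, top_move a, top_move b, Prod.mk.injEq] at h ⊢
    obtain ⟨h1, h2, h3⟩ := h
    rw [← h1] at h2 h3 ⊢
    refine ⟨rfl, funext fun j => ?_, funext fun j => ?_⟩
    · have := congrFun h2 j
      simp only [cut, D_add _ (ind i)] at this ⊢
      split_ifs at this ⊢ <;> simp [this]
    · have := congrFun h3 j
      simp only [cut, D_add _ (ind i)] at this ⊢
      split_ifs at this ⊢ <;> simp [this]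
  · simp only [mv, a, e.not.mp a, if_false, true_and, h]

def Psi (t s : Finset ℕ × (ℕ → ZMod 2) × (ℕ → ZMod 2)) : Prop :=
  t.1 ⊆ s.1 ∧ t.2.1 = cut t.1 s.2.1 ∧ t.2.2 = cut t.1 s.2.2 ∧ Comb t.1 t.2.1 t.2.2 ∧
    s.2.1 = cut s.1 s.2.1 ∧ s.2.2 = cut s.1 s.2.2

theorem cut_cut {B C : Finset ℕ} (h : B ⊆ C) (p : ℕ → ZMod 2) : cut B (cut C p) = cut B p := by
  funext i
  by_cases a : i ∈ B
  · simp [cut, a, h a]
  · simp [cut, a]

theorem comb_cut {B : Finset ℕ} {p q : ℕ → ZMod 2} : Comb B (cut B p) (cut B q) ↔ Comb B p q := by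
  refine forall₂_congr fun i hi => and_congr (or_congr ?_ (exists_congr fun j => and_congr_right
    fun hj => ?_)) (or_congr ?_ (and_congr_right fun hj => ?_)) <;> simp [cut, *]

theorem psi_iff {κ : ZMod 2} {u : Fin n → ZMod 2} {t} : Psi t (F κ u) ↔
    Valid κ u t.1 ∧ t.2.1 = cut t.1 (D u) ∧ t.2.2 = cut t.1 fun i => D u (i + 3) := by
  constructor
  · rintro ⟨a, b, c, d, -⟩
    simp only [F] at a b c
    rw [cut_cut a] at b c
    rw [b, c, comb_cut] at d
    exact ⟨⟨fun i hi => (top_valid κ u).1 i (a hi), d⟩, b, c⟩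
  · rintro ⟨a, b, c⟩
    simp only [Psi, F, cut_cut a.le, cut_cut (Subset.refl _), and_true]
    exact ⟨a.le, b, c, by rw [b, c, comb_cut]; exact a.2⟩

def sh (B : Finset ℕ) : Fin n → ZMod 2 := fun j => (#{i ∈ B | i + 2 ≤ j.1} : ℕ)

theorem D_sh (B : Finset ℕ) {j : ℕ} (h : j + 1 < n) :
    D (sh B : Fin n → ZMod 2) j = if ∃ i ∈ B, j = i + 1 then 1 else 0 := by
  simp only [D, X, sh, h, dif_pos (show j < n by omega), dif_pos]
  split_ifs with e
  · obtain ⟨i, hi, rfl⟩ := e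
    rw [show ({k ∈ B | k + 2 ≤ i + 1 + 1} : Finset ℕ) = insert i {k ∈ B | k + 2 ≤ i + 1} by
      ext k; simp only [mem_filter, mem_insert]; grind, card_insert_of_notMem (by simp)]
    push_cast
    rw [← add_assoc, CharTwo.add_self_eq_zero, zero_add]
  · rw [show ({k ∈ B | k + 2 ≤ j + 1} : Finset ℕ) = {k ∈ B | k + 2 ≤ j} by
      ext k; simp only [mem_filter]; grind, CharTwo.add_self_eq_zero]

theorem psi_sh {κ : ZMod 2} {u : Fin n → ZMod 2} {t} (h : Psi t (F κ u)) :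
    Psi t (F (κ + 1) (u + sh t.1)) := by
  rw [psi_iff] at h ⊢
  obtain ⟨a, b, c⟩ := h
  have s : ∀ i ∈ t.1, ∀ j ∈ t.1, j = i ∨ j + 4 ≤ i ∨ i + 4 ≤ j := fun i hi j hj => by
    rcases lt_trichotomy j i with e | e | e
    exacts [Or.inr (Or.inl (a.sep _ _ hj hi e)), Or.inl e, Or.inr (Or.inr (a.sep _ _ hi hj e))]
  have k : ∀ i ∈ t.1, ∀ r < 4, r ≠ 1 → D (u + sh t.1) (i + r) = D u (i + r) := fun i hi r h1 h2 => by
    have := (a.1 i hi).1
    rw [D_add, D_sh _ (by omega), if_neg, add_zero]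
    rintro ⟨j, hj, e⟩
    have := s i hi j hj
    omega
  have e1 : cut t.1 (D (u + sh t.1)) = cut t.1 (D u) := funext fun i => by
    by_cases x : i ∈ t.1 <;> simp only [cut, x, if_true, if_false]
    exact k i x 0 (by omega) (by omega)
  have e2 : cut t.1 (fun i => D (u + sh t.1) (i + 3)) = cut t.1 fun i => D u (i + 3) := funext fun i => by
    by_cases x : i ∈ t.1 <;> simp only [cut, x, if_true, if_false]
    exact k i x 3 (by omega) (by omega)
  refine ⟨⟨fun i hi => ?_, by rw [← comb_cut, e1, e2, comb_cut]; exact a.2⟩, e1 ▸ b, e2 ▸ c⟩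
  obtain ⟨x, y, z⟩ := a.1 i hi
  refine ⟨x, ?_, (k i hi 2 (by omega) (by omega)).trans z⟩
  rw [D_add, D_sh _ (by omega), if_pos ⟨i, hi, rfl⟩, y]

theorem main (n : ℕ) : ∃ f : (Fin n → ZMod 2) ≃ (Fin n → ZMod 2), ∀ u i, f (mv 0 i u) = mv 1 i (f u) := by
  classical
  have le : ∀ (κ : ZMod 2) t, #{u : Fin n → ZMod 2 | Psi t (F κ u)} ≤
      #{u : Fin n → ZMod 2 | Psi t (F (κ + 1) u)} := fun κ t =>
    card_le_card_of_injOn (· + sh t.1) (fun u h => by simpa using psi_sh (by simpa using h))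
      (add_left_injective _).injOn
  have r : ∀ (κ : ZMod 2) (u : Fin n → ZMod 2), #(F κ u).1 ≤ n ∧ Psi (F κ u) (F κ u) := fun κ u =>
    ⟨by simpa [F] using card_le_card (top_valid κ u).range, psi_iff.mpr ⟨top_valid κ u, rfl, rfl⟩⟩
  obtain ⟨f, h1, h2⟩ := glue (mv (n := n) 0) (mv 1) (mv_mv 0) (mv_mv 1) (F 0) (F 1) bisim univ univ
    (by simp) (by simp) (moebius _ _ (fun t => #t.1) n Psi (fun u => ⟨(r 0 u).1, (r 1 u).1⟩)
      (fun t s h => by
        rcases h.1.eq_or_ssubset with e | e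
        · obtain ⟨-, a, b, -, c, d⟩ := h
          rw [e] at a b
          exact Or.inl (Prod.ext e (Prod.ext (a.trans c.symm) (b.trans d.symm)))
        · exact Or.inr (card_lt_card e))
      (fun u => ⟨(r 0 u).2, (r 1 u).2⟩) fun t => le_antisymm (le 0 t) (le 1 t))
  exact ⟨Equiv.ofBijective f (Set.bijOn_univ.mp (by simpa using h1)), fun u i => h2 u (mem_univ u) i⟩

end Pool.Agent.H.MP_53071c_co
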